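import Pool.Agent.W423.NX.Defs
import Pool.Agent.W741.NC.Ker1

set_option autoImplicit false

/-! The property of the kernel in the extended system with multiplicities. -/

namespace Pool.Agent.W177.NX

open MvPolynomial Pool.Agent.H628R4.TZ Pool.Agent.W425.SM
open Pool.Agent.H628R4.TP hiding Sh
open Pool.Agent.W525.SM (Sh)
open Pool.Agent.W423.MG Pool.Agent.W423.NC Pool.Agent.W423.NX

theorem taskKerX : Pool.Agent.W423.NX.TaskKerX := by
  intro r N P g v m η hη κ i hκ
  induction i using Fin.addCases with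
  | left k =>
    exfalso
    have h1 : wh (N := N) η (Fin.castAdd N k) = η k := by
      unfold wh
      rw [Fin.append_left]
    rw [h1] at hκ
    have h2 := hη k
    rw [← hκ] at h2
    obtain ⟨h3, h4⟩ := h2
    have h5 : (0 : ℕ) < ∑ j, κ j * vx g v m j (Fin.castAdd N k) := by exact_mod_cast h3
    have h6 : ∑ j, κ j * vx g v m j (Fin.castAdd N k) < 1 := by exact_mod_cast h4
    omega
  | right l =>
    have h1 : wh (N := N) η (Fin.natAdd (P+1) l) = 1 := by
      unfold wh
      rw [Fin.append_right]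
    rw [h1] at hκ
    have h2 : ∑ j, κ j * vx g v m j (Fin.natAdd (P+1) l) = 1 := by exact_mod_cast hκ
    have hv0 : vx g v m 0 (Fin.natAdd (P+1) l) = 0 := by
      unfold vx
      rw [Fin.cons_zero, Fin.append_right]
    have hvs : ∀ j : Fin r, vx g v m j.succ (Fin.natAdd (P+1) l) = v j l := by
      intro j
      unfold vx
      rw [Fin.cons_succ, Fin.append_right]
    rw [Fin.sum_univ_succ, hv0, mul_zero, zero_add] at h2
    simp only [hvs] at h2
    have h3 : ∃ j0 : Fin r, κ j0.succ * v j0 l ≠ 0 := by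
      by_contra hcon
      push Not at hcon
      rw [Finset.sum_eq_zero fun j _ => hcon j] at h2
      exact zero_ne_one h2
    obtain ⟨j0, hj0⟩ := h3
    have h4 : κ j0.succ * v j0 l + ∑ j ∈ Finset.univ.erase j0, κ j.succ * v j l = 1 := by
      rw [Finset.add_sum_erase Finset.univ (fun j : Fin r => κ j.succ * v j l)
        (Finset.mem_univ j0)]
      exact h2
    have h5 : κ j0.succ * v j0 l = 1 := by omega
    have h6 : ∀ j, j ≠ j0 → κ j.succ * v j l = 0 := by
      intro j hj
      have h7 : ∑ j ∈ Finset.univ.erase j0, κ j.succ * v j l = 0 := by omega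
      exact (Finset.sum_eq_zero_iff.1 h7) j (Finset.mem_erase.2 ⟨hj, Finset.mem_univ j⟩)
    have hk1 : κ j0.succ = 1 := Nat.eq_one_of_mul_eq_one_right h5
    have hv1 : v j0 l = 1 := Nat.eq_one_of_mul_eq_one_left h5
    set I0 := Ideal.span {p : MvPolynomial (Fin r) ℂ | ∃ j : Fin r, 0 < v j l ∧
      p = X j + C ((κ j.succ : ℕ) : ℂ)} with hI0
    have hX : ∀ j, j ≠ j0 → 0 < v j l → (X j : MvPolynomial (Fin r) ℂ) ∈ I0 := by
      intro j hj hv
      have hk : κ j.succ = 0 := by
        rcases Nat.mul_eq_zero.1 (h6 j hj) with h | h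
        · exact h
        · omega
      refine Ideal.subset_span ⟨j, hv, ?_⟩
      rw [hk]
      simp
    have hX0 : (X j0 + 1 : MvPolynomial (Fin r) ℂ) ∈ I0 := by
      refine Ideal.subset_span ⟨j0, by omega, ?_⟩
      rw [hk1]
      simp
    have hmem := Pool.Agent.W741.NC.ker_mem g v l I0 j0 hv1 hX hX0
    rw [← map_mul]
    have hmap := Ideal.mem_map_of_mem (rn (r := r)).toRingHom hmem
    refine (Ideal.map_le_iff_le_comap.2 ?_) hmap
    rw [hI0, Ideal.span_le]
    rintro p ⟨j, hj, rfl⟩
    refine Ideal.subset_span ⟨j.succ, by rw [hvs]; exact hj, ?_⟩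
    change (rn (r := r)) (X j + C ((κ j.succ : ℕ) : ℂ)) = _
    unfold rn
    rw [map_add, rename_X, rename_C]

end Pool.Agent.W177.NX
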